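import Pool.Agent.Results.MP_155d71_an.SeparateActionFails

/-!
# The fixed point statement holds in a Banach space exactly when it has the Schur property
-/

set_option autoImplicit false

open Filter Topology BoundedContinuousFunction Set
open Pool.Agent.Results.MP_155d71_an.SeparateActionFails

namespace Pool.Agent.Results.MP_155d71_an.SchurCriterion

universe u

section Weak

variable {E : Type u} [NormedAddCommGroup E] [NormedSpace ℝ E]

lemma continuous_eval (φ : StrongDual ℝ E) : Continuous fun w : Weak E => φ (toW.symm w) :=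
  WeakBilin.eval_continuous (topDualPairing ℝ E).flip φ

lemma continuous_toW : Continuous (toW : E → Weak E) :=
  (toWeakSpaceCLM ℝ E).continuous

/-- Every sequence in a weakly compact set has a weakly convergent subsequence. -/
lemma weak_subseq {K : Set (Weak E)} (hK : IsCompact K) (u : ℕ → Weak E) (hu : ∀ n, u n ∈ K) :
    ∃ z ∈ K, ∃ f : ℕ → ℕ, StrictMono f ∧ Tendsto (fun n => u (f n)) atTop (𝓝 z) := by
  set v : ℕ → E := fun n => toW.symm (u n) with hv
  set Y : Set E := closure (Submodule.span ℝ (range v) : Set E) with hY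
  have hYsep : TopologicalSpace.IsSeparable Y :=
    ((countable_range v).isSeparable.span (R := ℝ)).closure
  have hYconv : Convex ℝ (Submodule.span ℝ (range v) : Set E) := Submodule.convex _
  have hYclosed : IsClosed (toW '' Y : Set (Weak E)) := by
    have h1 := hYconv.toWeakSpace_closure ℝ
    have h2 : (toW '' Y : Set (Weak E)) = closure
        (toWeakSpace ℝ E '' (Submodule.span ℝ (range v) : Set E) : Set (WeakSpace ℝ E)) := h1
    rw [h2]
    exact isClosed_closure
  set K' : Set (Weak E) := K ∩ toW '' Y with hK'def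
  have hK' : IsCompact K' := hK.inter_right hYclosed
  have : CompactSpace K' := isCompact_iff_compactSpace.mp hK'
  obtain ⟨c, hc, hYc⟩ := hYsep
  have hcne : c.Nonempty := by
    have h0 : (0 : E) ∈ Y := subset_closure (Submodule.zero_mem _)
    exact closure_nonempty_iff.1 ⟨0, hYc h0⟩
  obtain ⟨d, hd⟩ := hc.exists_eq_range hcne
  choose φ hφ1 hφ2 using fun n => exists_dual_vector'' ℝ (d n)
  have : TopologicalSpace.MetrizableSpace K' := by
    refine Metric.PiNatEmbed.TopologicalSpace.MetrizableSpace.of_countable_separating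
      (fun n (x : K') => φ n (toW.symm (x : Weak E)))
      (fun n => (continuous_eval (φ n)).comp continuous_subtype_val) ?_
    rintro ⟨x, hx⟩ ⟨y, hy⟩ hne
    by_contra hcon
    push Not at hcon
    have hcon2 : ∀ n, φ n (toW.symm x) = φ n (toW.symm y) := hcon
    apply hne
    clear hcon hne
    obtain ⟨-, x', hx', rfl⟩ := hx
    obtain ⟨-, y', hy', rfl⟩ := hy
    have hcon' : ∀ n, φ n (x' - y') = 0 := by
      intro n
      have := hcon2 n
      simp only [Equiv.symm_apply_apply] at this
      rw [map_sub, this, sub_self]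
    have hmem : x' - y' ∈ Y := by
      have := ((Submodule.span ℝ (range v)).topologicalClosure).sub_mem (x := x') (y := y')
        hx' hy'
      exact this
    have hcl : x' - y' ∈ closure (range d) := by
      rw [← hd]; exact hYc hmem
    have hzero : ‖x' - y'‖ ≤ 0 := by
      refine le_of_forall_pos_le_add fun ε hε => ?_
      obtain ⟨w, ⟨n, rfl⟩, hw⟩ := Metric.mem_closure_iff.1 hcl (ε / 2) (by positivity)
      have h1 : ‖d n‖ ≤ ‖d n - (x' - y')‖ := by
        have h2 : (φ n) (d n - (x' - y')) = ‖d n‖ := by
          rw [map_sub, hcon' n, sub_zero, hφ2 n]; rfl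
        have h3 := (φ n).le_opNorm (d n - (x' - y'))
        rw [h2, Real.norm_eq_abs, abs_of_nonneg (norm_nonneg _)] at h3
        refine h3.trans ?_
        nlinarith [norm_nonneg (d n - (x' - y')), hφ1 n]
      rw [dist_eq_norm, norm_sub_rev] at hw
      have h4 : ‖x' - y'‖ ≤ ‖d n‖ + ‖d n - (x' - y')‖ := by
        have := norm_sub_le (d n) (d n - (x' - y'))
        rwa [sub_sub_cancel] at this
      linarith
    have : x' - y' = 0 := norm_le_zero_iff.1 hzero
    have hxy : x' = y' := sub_eq_zero.1 this
    subst hxy
    rfl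
  have hu' : ∀ n, u n ∈ K' := fun n =>
    ⟨hu n, v n, subset_closure (Submodule.subset_span ⟨n, rfl⟩), by simp [hv]⟩
  obtain ⟨z, f, hf, hz⟩ := CompactSpace.tendsto_subseq (fun n => (⟨u n, hu' n⟩ : K'))
  refine ⟨z, z.2.1, f, hf, ?_⟩
  exact (continuous_subtype_val.tendsto z).comp hz

/-- The Schur property: weakly null sequences are norm null. -/
def SchurProperty (E : Type u) [NormedAddCommGroup E] [NormedSpace ℝ E] : Prop :=
  ∀ x : ℕ → E, Tendsto (fun n => toW (x n)) atTop (𝓝 (toW 0)) → Tendsto x atTop (𝓝 0)

lemma SchurProperty.isCompact (hE : SchurProperty E) {K : Set (Weak E)} (hK : IsCompact K) :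
    IsCompact (toW ⁻¹' K : Set E) := by
  apply IsSeqCompact.isCompact
  intro x hx
  obtain ⟨z, hz, f, hf, hlim⟩ := weak_subseq hK (fun n => toW (x n)) hx
  obtain ⟨z', rfl⟩ := toW.surjective z
  refine ⟨z', hz, f, hf, ?_⟩
  have h1 : Tendsto (fun n => toW (x (f n) - z')) atTop (𝓝 (toW (0 : E))) := by
    rw [weakly_tendsto_iff]
    intro φ
    have h2 := ((continuous_eval φ).tendsto (toW z')).comp hlim
    simp only [Function.comp_def, Equiv.symm_apply_apply] at h2
    have h3 := h2.sub_const (φ z')
    rw [sub_self] at h3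
    simpa using h3
  have h4 := hE _ h1
  have h5 := h4.add_const z'
  simp only [sub_add_cancel, zero_add] at h5
  exact h5

end Weak

section Abstract

variable {S : Type u} [Semigroup S] [TopologicalSpace S] [SemitopSemigroup S]
  {X : Type u} [MetricSpace X] [CompactSpace X]

/-- Fixed points of uniformly Lipschitz, separately continuous actions of extremely left amenable
semigroups on compact metric spaces. -/
lemma exists_fixed_compact (hS : ExtremelyLeftAmenable S) (A : S → X → X) (L : NNReal)
    (hmul : ∀ s t x, A (s * t) x = A s (A t x)) (hlip : ∀ s, LipschitzWith L (A s))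
    (hcont : ∀ x, Continuous fun s => A s x) (x₀ : X) : ∃ z, ∀ s, A s z = z := by
  obtain ⟨m, hm⟩ := hS
  have hjoint : Continuous fun p : S × X => A p.1 p.2 :=
    continuous_prod_of_continuous_lipschitzWith' _ L hlip hcont
  -- the orbit map
  let orb : C(S, X) := ⟨fun t => A t x₀, hcont x₀⟩
  -- the translates of a function
  let G : C(X, ℂ) → S → C(X, ℂ) := fun φ s => φ.comp ⟨A s, (hlip s).continuous⟩
  have hG : ∀ φ, Continuous (G φ) := by
    intro φ
    have : Continuous (ContinuousMap.curry ⟨fun p : S × X => φ (A p.1 p.2),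
      φ.continuous.comp hjoint⟩) := ContinuousMap.continuous _
    exact this
  let F : C(X, ℂ) → (S →ᵇ ℂ) := fun φ => (mkOfCompact φ).compContinuous orb
  have hFcont : Continuous F := by
    have h1 : Continuous (fun φ : C(X, ℂ) => mkOfCompact φ) :=
      (ContinuousMap.isometryEquivBoundedOfCompact X ℂ).isometry.continuous
    exact (BoundedContinuousFunction.continuous_compContinuous orb).comp h1
  have hFG : ∀ φ s, ltrans s (F φ) = F (G φ s) := by
    intro φ s
    ext t
    change φ (A (s * t) x₀) = φ (A s (A t x₀))
    rw [hmul]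
  have hLUC : ∀ φ, F φ ∈ LUC S := by
    intro φ
    rw [mem_LUC]
    simp only [hFG]
    exact hFcont.comp (hG φ)
  let χ : C(X, ℂ) →ₐ[ℂ] ℂ := AlgHom.ofLinearMap
    { toFun := fun φ => m ⟨F φ, hLUC φ⟩
      map_add' := fun φ ψ => hm.add ⟨F φ, hLUC φ⟩ ⟨F ψ, hLUC ψ⟩
      map_smul' := fun a φ => hm.smul a ⟨F φ, hLUC φ⟩ }
    hm.one (fun φ ψ => hm.mul ⟨F φ, hLUC φ⟩ ⟨F ψ, hLUC ψ⟩)
  obtain ⟨z, hz⟩ := (WeakDual.CharacterSpace.continuousMapEval_bijective (X := X) (𝕜 := ℂ)).2
    (WeakDual.CharacterSpace.equivAlgHom.symm χ)
  have hz' : ∀ φ : C(X, ℂ), m ⟨F φ, hLUC φ⟩ = φ z := by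
    intro φ
    have h1 : (WeakDual.CharacterSpace.equivAlgHom.symm χ) φ = φ z := by
      rw [← hz]; rfl
    exact h1
  refine ⟨z, fun s => ?_⟩
  have key : ∀ φ : C(X, ℂ), φ (A s z) = φ z := by
    intro φ
    have h1 := hz' (G φ s)
    have h2 : (⟨F (G φ s), hLUC (G φ s)⟩ : LUC S) = ltransLUC s ⟨F φ, hLUC φ⟩ :=
      Subtype.ext (hFG φ s).symm
    rw [h2, hm.left_invariant, hz'] at h1
    exact h1.symm
  have h3 := key ⟨fun x => ((dist x z : ℝ) : ℂ), by fun_prop⟩
  simp only [ContinuousMap.coe_mk, dist_self, Complex.ofReal_zero, Complex.ofReal_eq_zero] at h3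
  exact dist_eq_zero.1 h3

end Abstract

section Main

variable {E : Type u} [NormedAddCommGroup E] [NormedSpace ℝ E]

/-- `T` is a weakly continuous representation of the semitopological semigroup `S` on the subset
`C` of the Banach space `E` by maps with Lipschitz constant `L` for the norm; for `L = 1` this is
a weakly continuous, norm nonexpansive representation. -/
structure IsLipRepresentation {S : Type u} [Semigroup S] [TopologicalSpace S] (L : NNReal)
    (C : Set (Weak E)) (T : S → C → C) : Prop where
  mul : ∀ (s t : S) (x : C), T (s * t) x = T s (T t x)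
  lipschitz : ∀ (s : S) (x y : C), ndist (T s x : Weak E) (T s y) ≤ L * ndist (x : Weak E) y
  continuous_right : ∀ s : S, Continuous (T s)
  continuous_left : ∀ x : C, Continuous fun s : S => T s x

/-- The statement of the question for the Banach space `E` and for representations by maps of
Lipschitz constant `L`. -/
def LipFixedPointStatement (L : NNReal) (E : Type u) [NormedAddCommGroup E] [NormedSpace ℝ E] :
    Prop :=
  ∀ (S : Type u) [Semigroup S] [TopologicalSpace S] [SemitopSemigroup S],
    ExtremelyLeftAmenable S → ∀ (C : Set (Weak E)) (T : S → C → C), IsClosed C →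
      IsLipRepresentation L C T →
      (∃ c : C, IsCompact (closure (range fun s : S => (T s c : Weak E)))) →
      ∃ z : C, ∀ s : S, T s z = z

lemma isLip_one {S : Type u} [Semigroup S] [TopologicalSpace S] {C : Set (Weak E)}
    {T : S → C → C} (h : IsRepresentation C T) {L : NNReal} (hL : 1 ≤ L) :
    IsLipRepresentation L C T := by
  refine ⟨h.mul, fun s x y => (h.nonexpansive s x y).trans ?_, h.continuous_right,
    h.continuous_left⟩
  have h1 : (0 : ℝ) ≤ ndist (x : Weak E) y := norm_nonneg _
  have h2 : (1 : ℝ) ≤ L := by exact_mod_cast hL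
  nlinarith

lemma lip_one (L : NNReal) (hL : 1 ≤ L) (h : LipFixedPointStatement L E) :
    FixedPointStatement E := fun S _ _ _ hS C T hC hT hc =>
  h S hS C T hC (isLip_one hT hL) hc

theorem holds_of_schur (hE : SchurProperty E) (L : NNReal) : LipFixedPointStatement L E := by
  intro S _ _ _ hS C T hC hT ⟨c, hc⟩
  -- the orbit closure, with the norm
  set O : Set (Weak E) := closure (range fun s : S => (T s c : Weak E)) with hO
  have hOC : O ⊆ C := closure_minimal (by rintro _ ⟨s, rfl⟩; exact (T s c).2) hC
  have hTO : ∀ (s : S) (x : C), (x : Weak E) ∈ O → (T s x : Weak E) ∈ O := by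
    intro s x hx
    have h1 : x ∈ closure (range fun t : S => T t c) := by
      rw [closure_subtype]
      have : (Subtype.val '' (range fun t : S => T t c) : Set (Weak E)) =
          range fun s : S => (T s c : Weak E) := by
        rw [← range_comp]; rfl
      rw [this]
      exact hx
    have h2 : T s x ∈ closure (T s '' (range fun t : S => T t c)) :=
      image_closure_subset_closure_image (hT.continuous_right s) ⟨x, h1, rfl⟩
    have h3 : (T s x : Weak E) ∈ closure (Subtype.val '' (T s '' (range fun t : S => T t c))) :=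
      image_closure_subset_closure_image continuous_subtype_val ⟨T s x, h2, rfl⟩
    refine closure_mono ?_ h3
    rintro _ ⟨_, ⟨_, ⟨t, rfl⟩, rfl⟩, rfl⟩
    exact ⟨s * t, by simp only [hT.mul]⟩
  let X : Type u := {x : E // toW x ∈ O}
  have hXc : IsCompact {x : E | toW x ∈ O} := hE.isCompact hc
  have : CompactSpace X := isCompact_iff_compactSpace.mp hXc
  let A : S → X → X := fun s x =>
    ⟨toW.symm (T s ⟨toW x.1, hOC x.2⟩ : Weak E), by
      rw [Equiv.apply_symm_apply]; exact hTO s _ x.2⟩
  let i : X → Weak E := fun x => toW x.1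
  have hi : IsClosedEmbedding i := by
    refine (continuous_toW.comp continuous_subtype_val).isClosedEmbedding ?_
    intro x y hxy
    exact Subtype.ext (toW.injective hxy)
  have hA : ∀ s x, i (A s x) = (T s ⟨toW x.1, hOC x.2⟩ : Weak E) := fun s x =>
    Equiv.apply_symm_apply _ _
  have hne : Nonempty S := by
    by_contra hem
    rw [not_nonempty_iff] at hem
    obtain ⟨m, hm⟩ := hS
    have h1 : (1 : LUC S) = 0 := by
      apply Subtype.ext
      ext t
      exact hem.elim t
    have h2 := hm.add 0 0
    have h3 := hm.one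
    rw [h1] at h3
    rw [add_zero, h3] at h2
    norm_num at h2
  obtain ⟨s₀⟩ := hne
  have hx₀ : (T s₀ c : Weak E) ∈ O := subset_closure ⟨s₀, rfl⟩
  obtain ⟨z, hz⟩ := exists_fixed_compact hS A L (fun s t x => by
      apply Subtype.ext
      apply toW.injective
      change i (A (s * t) x) = i (A s (A t x))
      rw [hA, hA, hT.mul]
      congr 2) (fun s => LipschitzWith.of_dist_le_mul fun x y => by
      have := hT.lipschitz s ⟨toW x.1, hOC x.2⟩ ⟨toW y.1, hOC y.2⟩
      simp only [ndist, Equiv.symm_apply_apply] at this
      rw [Subtype.dist_eq, Subtype.dist_eq, dist_eq_norm, dist_eq_norm]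
      exact this) (fun x => by
      rw [hi.isInducing.continuous_iff]
      have : (i ∘ fun s => A s x) = fun s => (T s ⟨toW x.1, hOC x.2⟩ : Weak E) := by
        funext s; exact hA s x
      rw [this]
      exact continuous_subtype_val.comp (hT.continuous_left _))
    ⟨toW.symm (T s₀ c : Weak E), by rw [Equiv.apply_symm_apply]; exact hx₀⟩
  refine ⟨⟨toW z.1, hOC z.2⟩, fun s => Subtype.ext ?_⟩
  rw [← hA, hz s]

/-- **The fixed point statement of the question holds in a Banach space `E` if and only if `E` has
the Schur property** (weakly null sequences are norm null). The same holds for representations by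
uniformly Lipschitz maps, whatever the Lipschitz constant `L ≥ 1`. In particular the question has a
negative answer, for instance in the Hilbert space `ℓ²`. -/
theorem result :
    (∀ (E : Type u) [NormedAddCommGroup E] [NormedSpace ℝ E] [CompleteSpace E],
      (FixedPointStatement E ↔ SchurProperty E) ∧
      ∀ L : NNReal, 1 ≤ L → (LipFixedPointStatement L E ↔ SchurProperty E)) ∧
    ¬ FixedPointStatement Ell2 := by
  refine ⟨fun E _ _ _ => ?_, SeparateActionFails.result.{0}.2⟩
  have h1 : FixedPointStatement E → SchurProperty E := by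
    intro h x hx
    by_contra hx'
    obtain ⟨e, he⟩ := exists_good x hx hx'
    exact fails_of_good he h
  exact ⟨⟨h1, fun h => lip_one 1 le_rfl (holds_of_schur h 1)⟩,
    fun L hL => ⟨fun h => h1 (lip_one L hL h), fun h => holds_of_schur h L⟩⟩

end Main

end Pool.Agent.Results.MP_155d71_an.SchurCriterion
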